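import Mathlib

open Set

namespace Pool.Agent.T2H96.Gamma

/-- in a σ-closed preorder, well-ordered families of dense sets of length at most `ω₁` are met by
a decreasing chain -/
theorem chain {P : Type*} [Preorder P] [Nonempty P]
    (hσ : ∀ p : ℕ → P, (∀ n, p (n + 1) ≤ p n) → ∃ q, ∀ n, q ≤ p n)
    {Ω : Type*} [LinearOrder Ω] [WellFoundedLT Ω] (hc : ∀ a : Ω, (Iio a).Countable)
    (Good : Ω → P → Prop) (hg : ∀ a p, ∃ q ≤ p, Good a q) :
    ∃ s : Ω → P, (∀ a b, a < b → s b ≤ s a) ∧ ∀ a, Good a (s a) := by
  classical
  let F : ∀ a : Ω, (∀ b, b < a → P) → P := fun a ih =>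
    if h : ∃ q, (∀ b (hb : b < a), q ≤ ih b hb) ∧ Good a q then h.choose
    else Classical.arbitrary P
  have wf : WellFounded (fun a b : Ω => a < b) := wellFounded_lt
  let s : Ω → P := wf.fix F
  have hs : ∀ a, s a = F a (fun b _ => s b) := fun a => wf.fix_eq F a
  have key : ∀ a, (∀ b, b < a → s a ≤ s b) ∧ Good a (s a) := by
    intro a
    induction a using wf.induction with
    | _ a ih =>
      have hex : ∃ q, (∀ b (_ : b < a), q ≤ s b) ∧ Good a q := by
        obtain ⟨q0, hq0⟩ : ∃ q0, ∀ b, b < a → q0 ≤ s b := by
          rcases (Iio a).eq_empty_or_nonempty with he | hne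
          · refine ⟨Classical.arbitrary P, fun b hb => ?_⟩
            exact absurd (show b ∈ Iio a from hb) (he ▸ notMem_empty b)
          · obtain ⟨e, he⟩ := (hc a).exists_eq_range hne
            have hea : ∀ n, e n < a := fun n => by
              have : e n ∈ Iio a := he ▸ mem_range_self n
              exact this
            let m : ℕ → Ω := fun n => Nat.rec (e 0) (fun n r => max r (e (n + 1))) n
            have hm1 : ∀ n, m (n + 1) = max (m n) (e (n + 1)) := fun _ => rfl
            have hma : ∀ n, m n < a := by
              intro n
              induction n with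
              | zero => exact hea 0
              | succ n ihn => rw [hm1]; exact max_lt ihn (hea _)
            have hem : ∀ n, e n ≤ m n := by
              intro n
              cases n with
              | zero => exact le_rfl
              | succ n => rw [hm1]; exact le_max_right _ _
            have hanti : ∀ b c, b ≤ c → c < a → s c ≤ s b := by
              intro b c hbc hca
              rcases hbc.eq_or_lt with rfl | h
              · exact le_rfl
              · exact (ih c hca).1 b h
            obtain ⟨q0, hq0⟩ := hσ (fun n => s (m n)) fun n =>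
              hanti _ _ (by rw [hm1]; exact le_max_left _ _) (hma (n + 1))
            refine ⟨q0, fun b hb => ?_⟩
            obtain ⟨n, rfl⟩ : ∃ n, e n = b := by
              have : b ∈ Iio a := hb
              rw [he] at this
              exact this
            exact (hq0 n).trans (hanti _ _ (hem n) (hma n))
        obtain ⟨q, hq, hqg⟩ := hg a q0
        exact ⟨q, fun b hb => hq.trans (hq0 b hb), hqg⟩
      have h1 : s a = hex.choose := by
        rw [hs a]
        exact dif_pos hex
      rw [h1]
      exact ⟨fun b hb => hex.choose_spec.1 b hb, hex.choose_spec.2⟩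
  exact ⟨s, fun a b hab => (key b).1 a hab, fun a => (key a).2⟩

end Pool.Agent.T2H96.Gamma
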