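import Pool.Agent.T2H96.Gamma.Fusion

open Set Topology Filter PiNat

namespace Pool.Agent.T2H96.Gamma

/-- basic clopen set of the Cantor space given by a node (list in the order of `PiNat.res`) -/
def cyl (s : List Bool) : Set (ℕ → Bool) := {x | res x s.length = s}

theorem cyl_nonempty (s : List Bool) : (cyl s).Nonempty := by
  induction s with
  | nil => exact ⟨fun _ => false, rfl⟩
  | cons b s ih =>
    obtain ⟨x, hx⟩ := ih
    refine ⟨Function.update x s.length b, ?_⟩
    show res _ (s.length + 1) = b :: s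
    rw [res_succ, Function.update_self]
    congr 1
    conv_rhs => rw [← show res x s.length = s from hx]
    rw [res_eq_res]
    intro m hm
    exact Function.update_of_ne hm.ne _ _

theorem cyl_eq_cylinder {s : List Bool} {x : ℕ → Bool} (hx : x ∈ cyl s) :
    cyl s = cylinder x s.length := by
  rw [cylinder_eq_res]
  ext y
  have : res x s.length = s := hx
  simp [cyl, this]

theorem isCompact_cyl (s : List Bool) : IsCompact (cyl s) := by
  obtain ⟨x, hx⟩ := cyl_nonempty s
  rw [cyl_eq_cylinder hx, cylinder_eq_pi]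
  exact (isClosed_set_pi fun i _ => isClosed_discrete _).isCompact

theorem cyl_cons_subset (b : Bool) (s : List Bool) : cyl (b :: s) ⊆ cyl s := by
  intro x hx
  have : res x (s.length + 1) = b :: s := hx
  rw [res_succ] at this
  exact (List.cons.inj this).2

theorem mem_cyl_res (x : ℕ → Bool) (n : ℕ) : x ∈ cyl (res x n) := by
  show res x (res x n).length = res x n
  rw [res_length]

theorem cyl_res_subset {s : List Bool} {x : ℕ → Bool} (hx : x ∈ cyl s) {n : ℕ}
    (hn : s.length ≤ n) : cyl (res x n) ⊆ cyl s := by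
  rw [cyl_eq_cylinder hx, cyl_eq_cylinder (mem_cyl_res x n), res_length]
  exact cylinder_anti x hn

theorem shrink {E : Type} [PseudoMetricSpace E] {f : (ℕ → Bool) → E} (hf : Continuous f)
    (s : List Bool) {ε : ℝ} (hε : 0 < ε) :
    ∃ u, cyl u ⊆ cyl s ∧ Metric.ediam (f '' cyl u) ≤ ENNReal.ofReal ε := by
  obtain ⟨x, hx⟩ := cyl_nonempty s
  have h1 : f ⁻¹' Metric.ball (f x) (ε / 2) ∈ 𝓝 x :=
    hf.continuousAt.preimage_mem_nhds (Metric.ball_mem_nhds _ (by positivity))
  obtain ⟨v, ⟨y, m, rfl⟩, hxv, hv⟩ :=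
    (isTopologicalBasis_cylinders (E := fun _ => Bool)).mem_nhds_iff.1 h1
  rw [mem_cylinder_iff_eq] at hxv
  rw [← hxv] at hv
  refine ⟨res x (max m s.length), cyl_res_subset hx (le_max_right _ _), ?_⟩
  have h2 : f '' cyl (res x (max m s.length)) ⊆ Metric.ball (f x) (ε / 2) := by
    rintro _ ⟨z, hz, rfl⟩
    apply hv
    rw [cyl_eq_cylinder (mem_cyl_res x _), res_length] at hz
    exact cylinder_anti x (le_max_left _ _) hz
  refine (Metric.ediam_mono h2).trans ?_
  have h3 : Metric.ediam (Metric.ball (f x) (ε / 2)) ≤ 2 * ENNReal.ofReal (ε / 2) := by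
    rw [← Metric.eball_ofReal]
    exact Metric.ediam_eball_le
  refine h3.trans ?_
  rw [show (2 : ENNReal) = ENNReal.ofReal 2 by simp, ← ENNReal.ofReal_mul (by norm_num)]
  apply ENNReal.ofReal_le_ofReal
  linarith

variable (E : Type) [AddCommGroup E] [TopologicalSpace E]

/-- a condition: a countable subgroup together with countably many perfect sets (given as
injective continuous images of the Cantor space) -/
structure Cond where
  G : Submodule ℤ E
  cnt : (G : Set E).Countable
  φ : ℕ → (ℕ → Bool) → E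
  cont : ∀ i, Continuous (φ i)
  inj : ∀ i, Function.Injective (φ i)

variable {E}

/-- the group generated by a condition -/
def Cond.H (p : Cond E) : Submodule ℤ E :=
  p.G ⊔ Submodule.span ℤ (range fun q : ℕ × (ℕ → Bool) => p.φ q.1 q.2)

theorem Cond.G_le (p : Cond E) : p.G ≤ p.H := le_sup_left

theorem Cond.φ_mem (p : Cond E) (i : ℕ) (x : ℕ → Bool) : p.φ i x ∈ p.H :=
  (le_sup_right : _ ≤ p.H) (Submodule.subset_span ⟨(i, x), rfl⟩)

instance : Preorder (Cond E) where
  le q p := p.G ≤ q.G ∧ q.H ≤ p.H ∧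
    ∀ i s, ∃ j t, q.φ j '' cyl t ⊆ p.φ i '' cyl s
  le_refl p := ⟨le_rfl, le_rfl, fun i s => ⟨i, s, subset_rfl⟩⟩
  le_trans a b c hab hbc := by
    refine ⟨hbc.1.trans hab.1, hab.2.1.trans hbc.2.1, fun i s => ?_⟩
    obtain ⟨j, t, hjt⟩ := hbc.2.2 i s
    obtain ⟨k, u, hku⟩ := hab.2.2 j t
    exact ⟨k, u, hku.trans hjt⟩

theorem Cond.le_def (q p : Cond E) : q ≤ p ↔ p.G ≤ q.G ∧ q.H ≤ p.H ∧
    ∀ i s, ∃ j t, q.φ j '' cyl t ⊆ p.φ i '' cyl s := Iff.rfl

section limit

variable [PolishSpace E]

theorem node (p : ℕ → Cond E) (hp : ∀ n, p (n + 1) ≤ p n) (i : ℕ) (s : List Bool) :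
    ∃ ψ : (ℕ → Bool) → E, Continuous ψ ∧ Function.Injective ψ ∧
      (∀ x, ψ x ∈ (p 0).φ i '' cyl s) ∧ ∀ k x, ψ x ∈ (p k).H := by
  let _ := TopologicalSpace.upgradeIsCompletelyMetrizable E
  have hstep : ∀ (k : ℕ) (b : Bool) (a : ℕ × List Bool), ∃ a' : ℕ × List Bool,
      (p (k + 1)).φ a'.1 '' cyl a'.2 ⊆ (p k).φ a.1 '' cyl (b :: a.2) ∧
      Metric.ediam ((p (k + 1)).φ a'.1 '' cyl a'.2) ≤ ENNReal.ofReal (1 / (k + 1)) := by
    intro k b a
    obtain ⟨u, hu, hud⟩ := shrink ((p k).cont a.1) (b :: a.2) (ε := 1 / (k + 1)) (by positivity)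
    obtain ⟨j, t, hjt⟩ := (hp k).2.2 a.1 u
    exact ⟨(j, t), hjt.trans (image_mono hu), (Metric.ediam_mono hjt).trans hud⟩
  choose F hF1 hF2 using hstep
  let nd : List Bool → ℕ × List Bool := fun l =>
    List.rec (i, s) (fun b l a => F l.length b a) l
  have hnd : ∀ b l, nd (b :: l) = F l.length b (nd l) := fun _ _ => rfl
  let A : List Bool → Set E := fun l => (p l.length).φ (nd l).1 '' cyl (nd l).2
  have hA1 : ∀ l b, A (b :: l) ⊆ (p l.length).φ (nd l).1 '' cyl (b :: (nd l).2) := by
    intro l b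
    exact hF1 l.length b (nd l)
  have hA2 : ∀ l b, Metric.ediam (A (b :: l)) ≤ ENNReal.ofReal (1 / (l.length + 1)) := by
    intro l b
    exact hF2 l.length b (nd l)
  have hanti : CantorScheme.Antitone A := fun l b =>
    (hA1 l b).trans (image_mono (cyl_cons_subset _ _))
  have hclosed : ∀ l, IsClosed (A l) := fun l =>
    ((isCompact_cyl _).image ((p _).cont _)).isClosed
  have hcl := hanti.closureAntitone hclosed
  have hdis : CantorScheme.Disjoint A := by
    intro l a b hab
    refine Disjoint.mono (hA1 l a) (hA1 l b) ?_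
    rw [Set.disjoint_image_iff ((p _).inj _), Set.disjoint_left]
    intro x hx hx'
    have h1 : res x ((nd l).2.length + 1) = a :: (nd l).2 := hx
    have h2 : res x ((nd l).2.length + 1) = b :: (nd l).2 := hx'
    exact hab (List.cons.inj (h1.symm.trans h2)).1
  have hvan : CantorScheme.VanishingDiam A := by
    intro x
    rw [← tendsto_add_atTop_iff_nat 1]
    have h1 : ∀ n, Metric.ediam (A (res x (n + 1))) ≤ ENNReal.ofReal (1 / (n + 1)) := by
      intro n
      rw [res_succ]
      have := hA2 (res x n) (x n)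
      rwa [res_length] at this
    refine tendsto_of_tendsto_of_tendsto_of_le_of_le tendsto_const_nhds ?_ (fun _ => zero_le) h1
    have := ENNReal.tendsto_ofReal (tendsto_one_div_add_atTop_nhds_zero_nat (𝕜 := ℝ))
    simpa using this
  have hne : ∀ l, (A l).Nonempty := fun l => (cyl_nonempty _).image _
  have hdom := hcl.map_of_vanishingDiam hvan hne
  let Ψ : (ℕ → Bool) → E := fun x => (CantorScheme.inducedMap A).2 ⟨x, hdom ▸ mem_univ x⟩
  have hΨmem : ∀ x n, Ψ x ∈ A (res x n) := by
    intro x n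
    exact CantorScheme.map_mem _ n
  refine ⟨Ψ, hvan.map_continuous.comp (continuous_id.subtype_mk _), ?_, ?_, ?_⟩
  · intro x y hxy
    have := hdis.map_injective hxy
    simpa using this
  · intro x
    exact hΨmem x 0
  · intro k x
    obtain ⟨y, hy, hyx⟩ := hΨmem x k
    rw [← hyx]
    simp only [res_length]
    exact (p k).φ_mem _ _

/-- the order is σ-closed -/
theorem limit (p : ℕ → Cond E) (hp : ∀ n, p (n + 1) ≤ p n) : ∃ q, ∀ n, q ≤ p n := by
  have hanti : Antitone p := antitone_nat_of_succ_le hp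
  have hnode : ∀ a : ℕ × ℕ × List Bool, ∃ ψ : (ℕ → Bool) → E, Continuous ψ ∧
      Function.Injective ψ ∧ (∀ x, ψ x ∈ (p a.1).φ a.2.1 '' cyl a.2.2) ∧
      ∀ k x, ψ x ∈ (p (a.1 + k)).H := by
    rintro ⟨n, i, s⟩
    exact node (fun k => p (n + k)) (fun k => hp (n + k)) i s
  choose ψ hψc hψi hψm hψH using hnode
  obtain ⟨e, he⟩ := exists_surjective_nat (ℕ × ℕ × List Bool)
  have hmono : Monotone fun n => (p n).G := fun m n hmn => (hanti hmn).1
  have hdir : Directed (· ≤ ·) fun n => (p n).G := hmono.directed_le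
  let q : Cond E :=
    { G := ⨆ n, (p n).G
      cnt := by
        rw [Submodule.coe_iSup_of_directed _ hdir]
        exact countable_iUnion fun n => (p n).cnt
      φ := fun m => ψ (e m)
      cont := fun m => hψc _
      inj := fun m => hψi _ }
  refine ⟨q, fun m => ⟨le_iSup (fun n => (p n).G) m, ?_, fun i s => ?_⟩⟩
  · refine sup_le (iSup_le fun n => ?_) (Submodule.span_le.2 ?_)
    · rcases le_total m n with h | h
      · exact (p n).G_le.trans (hanti h).2.1
      · exact (hanti h).1.trans (p m).G_le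
    · rintro _ ⟨⟨a, x⟩, rfl⟩
      show ψ (e a) x ∈ (p m).H
      have h1 := hψH (e a)
      rcases le_total m (e a).1 with h | h
      · exact (hanti h).2.1 (by simpa using h1 0 x)
      · obtain ⟨k, rfl⟩ := Nat.exists_eq_add_of_le h
        exact h1 k x
  · obtain ⟨a, ha⟩ := he (m, i, s)
    refine ⟨a, [], ?_⟩
    rintro _ ⟨x, -, rfl⟩
    show ψ (e a) x ∈ _
    have := hψm (e a) x
    rw [ha] at this ⊢
    exact this

end limit

end Pool.Agent.T2H96.Gamma
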