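import Pool.Agent.T2H96.Gamma.Key
import Pool.Agent.T2H96.Gamma.Chain

open Set Topology Filter Cardinal

namespace Pool.Agent.T2H96.Gamma

theorem Cond.enlarge {E : Type} [AddCommGroup E] [TopologicalSpace E] (p : Cond E) (F : Finset E)
    (hF : (F : Set E) ⊆ p.H) : ∃ q ≤ p, (F : Set E) ⊆ q.G := by
  let q : Cond E :=
    { G := p.G ⊔ Submodule.span ℤ F
      cnt := by
        have h1 := span_countable (p.cnt.union F.countable_toSet)
        rwa [Submodule.span_union, Submodule.span_eq] at h1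
      φ := p.φ
      cont := p.cont
      inj := p.inj }
  refine ⟨q, ⟨le_sup_left, ?_, fun i s => ⟨i, s, subset_rfl⟩⟩, ?_⟩
  · exact sup_le (sup_le p.G_le (Submodule.span_le.2 hF)) le_sup_right
  · exact Submodule.subset_span.trans (SetLike.coe_subset_coe.2 le_sup_right)

variable {E : Type} [AddCommGroup E] [TopologicalSpace E] [IsTopologicalAddGroup E]
  [PolishSpace E] [MeasurableSpace E] [BorelSpace E]

omit [AddCommGroup E] [IsTopologicalAddGroup E] in
theorem card_borel : #{S : Set E // MeasurableSet S} ≤ 𝔠 := by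
  obtain ⟨b, hb, hbe⟩ := MeasurableSpace.CountablyGenerated.isCountablyGenerated (α := E)
  have h1 := MeasurableSpace.cardinal_measurableSet_le_continuum (s := b)
    (hb.le_aleph0.trans aleph0_le_continuum)
  rw [← hbe] at h1
  exact h1

omit [AddCommGroup E] [IsTopologicalAddGroup E] [MeasurableSpace E] [BorelSpace E] in
theorem card_polish : #E ≤ 𝔠 := by
  borelize E
  refine le_trans ?_ (card_borel (E := E))
  refine mk_le_of_injective (f := fun x => ⟨{x}, measurableSet_singleton x⟩) fun x y h => ?_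
  simpa using h

/-- the tasks -/
abbrev Task (E : Type) [MeasurableSpace E] : Type :=
  (ℕ → ℕ → {S : Set E // MeasurableSet S}) ⊕ (ℕ → E)

omit [AddCommGroup E] [IsTopologicalAddGroup E] in
theorem card_task : #(Task E) ≤ 𝔠 := by
  have h1 : #(ℕ → ℕ → {S : Set E // MeasurableSet S}) ≤ 𝔠 := by
    have h2 : #(ℕ → {S : Set E // MeasurableSet S}) ≤ 𝔠 := by
      simp only [mk_pi, prod_const, lift_id, mk_nat]
      exact (power_le_power_right card_borel).trans continuum_power_aleph0.le
    rw [mk_pi, prod_const]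
    simp only [lift_id, mk_nat]
    exact (power_le_power_right h2).trans continuum_power_aleph0.le
  have h2 : #(ℕ → E) ≤ 𝔠 := by
    simp only [mk_pi, prod_const, lift_id, mk_nat]
    exact (power_le_power_right card_polish).trans continuum_power_aleph0.le
  rw [mk_sum, lift_id, lift_id]
  exact (add_le_add h1 h2).trans continuum_add_self.le

/-- meeting a task -/
def Meets (q : Cond E) : Task E → Prop
  | .inl 𝒰 => (∃ n, ∃ F : Finset E, (F : Set E) ⊆ q.G ∧ ∀ k, ¬ ((F : Set E) ⊆ (𝒰 n k).1)) ∨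
      ∃ c : ℕ → ℕ, ∀ x ∈ q.H, ∀ᶠ n in atTop, x ∈ (𝒰 n (c n)).1
  | .inr e => ∃ x ∈ q.G, x ∉ range e

omit [PolishSpace E] in
theorem meets_dense (t : Task E) (p : Cond E) : ∃ q ≤ p, Meets q t := by
  cases t with
  | inl 𝒰 => exact key p (fun n k => (𝒰 n k).1) fun n k => (𝒰 n k).2
  | inr e =>
    have h1 : ¬ (range (p.φ 0)).Countable := by
      intro h
      have h2 : (univ : Set (ℕ → Bool)).Countable := by
        refine Set.MapsTo.countable_of_injOn (t := range (p.φ 0)) (f := p.φ 0)
          (fun x _ => mem_range_self x) (p.inj 0).injOn h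
      have h3 : #(ℕ → Bool) ≤ ℵ₀ := by
        rw [countable_univ_iff] at h2
        exact mk_le_aleph0
      simp only [mk_pi, prod_const, lift_id, mk_nat, mk_bool, two_power_aleph0] at h3
      exact absurd h3 (not_le.2 aleph0_lt_continuum)
    obtain ⟨x, hx, hxe⟩ : ∃ x ∈ range (p.φ 0), x ∉ range e := by
      by_contra hcon
      push Not at hcon
      exact h1 ((countable_range e).mono hcon)
    obtain ⟨y, rfl⟩ := hx
    obtain ⟨q, hq, hqF⟩ := p.enlarge {p.φ 0 y} (by simpa using p.φ_mem 0 y)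
    exact ⟨q, hq, p.φ 0 y, hqF (by simp), hxe⟩

/-- the main theorem on subgroups, in a general uncountable Polish group -/
theorem main (CH : (𝔠 : Cardinal.{0}) = ℵ₁) (hE : Uncountable E) :
    ∃ G : AddSubgroup E, #G = 𝔠 ∧ ∀ 𝒰 : ℕ → ℕ → Set E, (∀ n k, MeasurableSet (𝒰 n k)) →
      (∃ n, ∃ F : Finset E, (F : Set E) ⊆ G ∧ ∀ k, ¬ ((F : Set E) ⊆ 𝒰 n k)) ∨
      ∃ c : ℕ → ℕ, ∀ x ∈ G, ∀ᶠ n in atTop, x ∈ 𝒰 n (c n) := by
  classical
  let Ω := (ℵ₁ : Cardinal.{0}).ord.ToType
  have hΩ : #Ω = ℵ₁ := mk_ord_toType _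
  have hcount : ∀ a : Ω, (Iio a).Countable := by
    intro a
    rw [← le_aleph0_iff_set_countable, ← lt_aleph_one_iff]
    simpa [Ω] using Cardinal.mk_Iio_lt a
  obtain ⟨f, hf⟩ : ∃ f : Ω → Task E, Function.Surjective f := by
    have h1 : #(Task E) ≤ #Ω := by
      rw [hΩ, ← CH]
      exact card_task
    obtain ⟨g⟩ := h1
    have : Nonempty (Task E) := ⟨Sum.inr fun _ => 0⟩
    exact ⟨Function.invFun g, Function.invFun_surjective g.injective⟩
  have hne : Nonempty (Cond E) := by
    have h1 : ¬ (univ : Set E).Countable := by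
      rw [countable_univ_iff]
      exact not_countable_iff.2 hE
    obtain ⟨φ, -, hφc, hφi⟩ := isClosed_univ.exists_nat_bool_injection_of_not_countable h1
    exact ⟨{ G := ⊥, cnt := by simp, φ := fun _ => φ, cont := fun _ => hφc, inj := fun _ => hφi }⟩
  obtain ⟨s, hs, hsm⟩ := chain limit hcount (fun a q => Meets q (f a))
    fun a p => meets_dense (f a) p
  have hs' : ∀ a b, a ≤ b → s b ≤ s a := by
    intro a b hab
    rcases hab.eq_or_lt with rfl | h
    · exact le_rfl
    · exact hs a b h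
  have hdir : Directed (· ≤ ·) fun a => (s a).G := by
    have : Monotone fun a => (s a).G := fun a b hab => (hs' a b hab).1
    exact this.directed_le
  have hΩne : Nonempty Ω := by
    rw [← mk_ne_zero_iff, hΩ]
    exact (aleph_pos 1).ne'
  set G : Submodule ℤ E := ⨆ a, (s a).G with hG
  have hGH : ∀ a, G ≤ (s a).H := by
    intro a
    refine iSup_le fun b => ?_
    rcases le_total a b with h | h
    · exact (s b).G_le.trans (hs' a b h).2.1
    · exact (hs' b a h).1.trans (s a).G_le
  have hGle : ∀ a, (s a).G ≤ G := fun a => le_iSup (fun a => (s a).G) a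
  refine ⟨G.toAddSubgroup, ?_, fun 𝒰 h𝒰 => ?_⟩
  · apply le_antisymm
    · exact (mk_set_le _).trans card_polish
    · by_contra hlt
      rw [not_le] at hlt
      have h1 : (G : Set E).Countable := by
        rw [← le_aleph0_iff_set_countable, ← lt_aleph_one_iff, ← CH]
        exact hlt
      obtain ⟨e, he⟩ := h1.exists_eq_range ⟨0, G.zero_mem⟩
      obtain ⟨a, ha⟩ := hf (Sum.inr e)
      have := hsm a
      rw [ha] at this
      obtain ⟨x, hx, hxe⟩ := this
      apply hxe
      rw [← he]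
      exact hGle a hx
  · obtain ⟨a, ha⟩ := hf (Sum.inl fun n k => ⟨𝒰 n k, h𝒰 n k⟩)
    have := hsm a
    rw [ha] at this
    rcases this with ⟨n, F, hF, hFk⟩ | ⟨c, hc⟩
    · exact Or.inl ⟨n, F, fun x hx => hGle a (hF hx), hFk⟩
    · exact Or.inr ⟨c, fun x hx => hc x (hGH a hx)⟩

end Pool.Agent.T2H96.Gamma
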