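import Mathlib

open Set Topology Filter PiNat

namespace Pool.Agent.T2H96.Gamma

/-- nodes of level `n` of the binary tree, as lists in the reversed order used by `PiNat.res` -/
abbrev Nd (n : ℕ) := List.Vector Bool n

section fusion

variable {X : Type} [MetricSpace X]

/-- basic box lemma: an open nonempty set in a finite power contains a box of small closed balls -/
theorem exists_box {J : Type} [Fintype J] {Q : Set (J → X)} (hQ : IsOpen Q)
    {z : J → X} (hz : z ∈ Q) {ε : ℝ} (hε : 0 < ε) :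
    ∃ W : J → Set X, (∀ s, IsOpen (W s)) ∧ (∀ s, z s ∈ W s) ∧
      (∀ s, Metric.ediam (W s) ≤ ENNReal.ofReal ε) ∧
      ∀ y : J → X, (∀ s, y s ∈ closure (W s)) → y ∈ Q := by
  obtain ⟨δ, hδ, hball⟩ := Metric.isOpen_iff.1 hQ z hz
  set ρ := min (δ / 2) (ε / 2) with hρ
  have hρ0 : 0 < ρ := by positivity
  refine ⟨fun s => Metric.ball (z s) ρ, fun s => Metric.isOpen_ball,
    fun s => Metric.mem_ball_self hρ0, fun s => ?_, fun y hy => ?_⟩
  · have h1 : Metric.ediam (Metric.ball (z s) ρ) ≤ 2 * ENNReal.ofReal ρ := by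
      rw [← Metric.eball_ofReal]
      exact Metric.ediam_eball_le
    refine h1.trans ?_
    rw [show (2 : ENNReal) = ENNReal.ofReal 2 by simp, ← ENNReal.ofReal_mul (by norm_num)]
    apply ENNReal.ofReal_le_ofReal
    have := min_le_right (δ / 2) (ε / 2)
    linarith
  · apply hball
    rw [Metric.mem_ball, dist_pi_lt_iff hδ]
    intro s
    have := Metric.closure_ball_subset_closedBall (hy s)
    rw [Metric.mem_closedBall] at this
    have h2 := min_le_left (δ / 2) (ε / 2)
    linarith

theorem dense_comp [Nonempty X] {J K : Type} [Finite J] [Finite K] (σ : J → K)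
    (hσ : Function.Injective σ) {D : Set (J → X)} (hD : Dense D) :
    Dense {z : K → X | (fun s => z (σ s)) ∈ D} := by
  classical
  cases nonempty_fintype J
  cases nonempty_fintype K
  rw [Metric.dense_iff]
  intro z r hr
  obtain ⟨d, hd, hdD⟩ := Metric.dense_iff.1 hD (fun s => z (σ s)) r hr
  refine ⟨Function.extend σ d z, ?_, ?_⟩
  · rw [Metric.mem_ball, dist_pi_lt_iff hr] at hd ⊢
    intro t
    by_cases ht : ∃ s, σ s = t
    · obtain ⟨s, rfl⟩ := ht
      rw [hσ.extend_apply]
      exact hd s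
    · rw [Function.extend_apply' _ _ _ ht]
      simpa using hr
  · show (fun s => Function.extend σ d z (σ s)) ∈ D
    simpa [hσ.extend_apply] using hdD

theorem dense_ne (hperf : ∀ x : X, (𝓝[≠] x).NeBot) {J : Type} [Finite J] {s t : J}
    (hst : s ≠ t) : Dense {z : J → X | z s ≠ z t} := by
  classical
  cases nonempty_fintype J
  rw [Metric.dense_iff]
  intro z r hr
  have := hperf (z t)
  obtain ⟨x, hx, hxt⟩ := Metric.dense_iff.1 (dense_compl_singleton (z t)) (z s) r hr
  refine ⟨Function.update z s x, ?_, ?_⟩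
  · rw [Metric.mem_ball, dist_pi_lt_iff hr] at *
    intro u
    by_cases hu : u = s
    · subst hu; simpa using hx
    · simpa [Function.update_of_ne hu] using hr
  · show Function.update z s x s ≠ Function.update z s x t
    rw [Function.update_self, Function.update_of_ne hst.symm]
    exact hxt

theorem exists_seq_of_residual {Y : Type*} [TopologicalSpace Y] {R : Set Y}
    (hR : R ∈ residual Y) :
    ∃ D : ℕ → Set Y, (∀ j, IsOpen (D j)) ∧ (∀ j, Dense (D j)) ∧ ∀ y, (∀ j, y ∈ D j) → y ∈ R := by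
  obtain ⟨S, hSo, hSd, hSc, hSR⟩ := mem_residual_iff.1 hR
  rcases S.eq_empty_or_nonempty with rfl | hne
  · refine ⟨fun _ => univ, fun _ => isOpen_univ, fun _ => dense_univ, fun y _ => hSR ?_⟩
    simp
  · obtain ⟨D, hD⟩ := hSc.exists_eq_range hne
    refine ⟨D, fun j => hSo _ (hD ▸ mem_range_self j), fun j => hSd _ (hD ▸ mem_range_self j),
      fun y hy => hSR ?_⟩
    rw [hD]
    simpa using hy

/-- selections of extensions of all the nodes of level `n` -/
abbrev Sel (n N : ℕ) := {σ : Nd n → Nd N // ∀ s, s.1 <:+ (σ s).1}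

theorem Sel.inj {n N : ℕ} (σ : Sel n N) : Function.Injective σ.1 := by
  intro s t h
  have h1 := σ.2 s
  have h2 := σ.2 t
  rw [← h] at h2
  have h3 : s.1.length = t.1.length := by rw [s.2, t.2]
  exact Subtype.ext ((List.suffix_of_suffix_length_le h1 h2 h3.le).eq_of_length h3)

/-- the dense open set that is met at stage `N` -/
def DD (D : ∀ n, ℕ → Set (Nd n → X)) (N : ℕ) : Set (Nd N → X) :=
  (⋂ n : Fin (N + 1), ⋂ j : Fin (N + 1), ⋂ σ : Sel n N, {z | (fun s => z (σ.1 s)) ∈ D n j}) ∩
    ⋂ p : {p : Nd N × Nd N // p.1 ≠ p.2}, {z | z p.1.1 ≠ z p.1.2}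

theorem DD_open {D : ∀ n, ℕ → Set (Nd n → X)} (hD : ∀ n j, IsOpen (D n j)) (N : ℕ) :
    IsOpen (DD D N) := by
  apply IsOpen.inter
  · refine isOpen_iInter_of_finite fun n => isOpen_iInter_of_finite fun j =>
      isOpen_iInter_of_finite fun σ => (hD n j).preimage ?_
    fun_prop
  · refine isOpen_iInter_of_finite fun p => ?_
    exact isOpen_ne_fun (continuous_apply _) (continuous_apply _)

theorem DD_dense [CompleteSpace X] [Nonempty X] (hperf : ∀ x : X, (𝓝[≠] x).NeBot)
    {D : ∀ n, ℕ → Set (Nd n → X)}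
    (hDo : ∀ n j, IsOpen (D n j)) (hD : ∀ n j, Dense (D n j)) (N : ℕ) :
    Dense (DD D N) := by
  apply Dense.inter_of_isOpen_right
  · have ho : ∀ (n j : Fin (N + 1)) (σ : Sel n N),
        IsOpen {z : Nd N → X | (fun s => z (σ.1 s)) ∈ D n j} := fun n j σ =>
      (hDo n j).preimage (by fun_prop)
    refine dense_iInter_of_isOpen (fun n => isOpen_iInter_of_finite fun j =>
      isOpen_iInter_of_finite fun σ => ho n j σ) fun n => dense_iInter_of_isOpen
        (fun j => isOpen_iInter_of_finite fun σ => ho n j σ) fun j =>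
          dense_iInter_of_isOpen (fun σ => ho n j σ) fun σ => ?_
    exact dense_comp σ.1 σ.inj (hD n j)
  · exact dense_iInter_of_isOpen (fun p => isOpen_ne_fun (continuous_apply _) (continuous_apply _))
      fun p => dense_ne hperf p.2
  · refine isOpen_iInter_of_finite fun p => ?_
    exact isOpen_ne_fun (continuous_apply _) (continuous_apply _)

/-- one stage of the fusion -/
theorem stage [CompleteSpace X] [Nonempty X] (hperf : ∀ x : X, (𝓝[≠] x).NeBot)
    {D O : ∀ n, ℕ → Set (Nd n → X)}
    (hDo : ∀ n j, IsOpen (D n j)) (hD : ∀ n j, Dense (D n j))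
    (hO : ∀ n j, IsOpen (O n j)) (hOd : ∀ n, Dense (⋃ j, O n j))
    (N : ℕ) (V : {V : Nd N → Set X // ∀ s, IsOpen (V s) ∧ (V s).Nonempty}) :
    ∃ (W : {V : Nd N → Set X // ∀ s, IsOpen (V s) ∧ (V s).Nonempty}) (c : ℕ),
      (∀ s, Metric.ediam (W.1 s) ≤ ENNReal.ofReal (1 / (N + 1))) ∧
      (∀ s, closure (W.1 s) ⊆ V.1 s) ∧
      ∀ y : Nd N → X, (∀ s, y s ∈ W.1 s) → y ∈ DD D N ∧ y ∈ O N c := by
  classical
  obtain ⟨V, hV⟩ := V
  have hVo : IsOpen (univ.pi V) := isOpen_set_pi finite_univ fun s _ => (hV s).1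
  have hVn : (univ.pi V).Nonempty := univ_pi_nonempty_iff.2 fun s => (hV s).2
  have hd : Dense (DD D N ∩ ⋃ j, O N j) :=
    (DD_dense hperf hDo hD N).inter_of_isOpen_left (hOd N) (DD_open hDo N)
  obtain ⟨z, hzV, hzD, hzO⟩ := hd.inter_open_nonempty _ hVo hVn
  obtain ⟨c, hc⟩ := mem_iUnion.1 hzO
  obtain ⟨W, hWo, hWz, hWd, hWb⟩ := exists_box (Q := univ.pi V ∩ (DD D N ∩ O N c))
    (hVo.inter ((DD_open hDo N).inter (hO N c))) ⟨hzV, hzD, hc⟩ (ε := 1 / (N + 1))
    (by positivity)
  refine ⟨⟨W, fun s => ⟨hWo s, z s, hWz s⟩⟩, c, hWd, fun s x hx => ?_, fun y hy => ?_⟩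
  · have := (hWb (Function.update z s x) fun t => ?_).1 s (mem_univ _)
    · simpa using this
    · by_cases h : t = s
      · subst h; simpa using hx
      · rw [Function.update_of_ne h]
        exact subset_closure (hWz t)
  · exact (hWb y fun s => subset_closure (hy s)).2

/-- the fusion lemma -/
theorem fusion [CompleteSpace X] [Nonempty X] (hperf : ∀ x : X, (𝓝[≠] x).NeBot)
    (B : ∀ n, ℕ → Set (Nd n → X))
    (hB : ∀ n k, ∃ u : Set (Nd n → X), IsOpen u ∧ B n k =ᵇ u)
    (hBc : ∀ n z, ∃ k, z ∈ B n k) :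
    ∃ (c : ℕ → ℕ) (Ψ : (ℕ → Bool) → X), Continuous Ψ ∧ Function.Injective Ψ ∧
      ∀ n (z : Nd n → X), (∀ s, ∃ x, res x n = s.1 ∧ Ψ x = z s) → z ∈ B n (c n) := by
  classical
  choose O hOo hBO using hB
  have hres : ∀ n, {z | ∀ k, z ∈ B n k ↔ z ∈ O n k} ∈ residual (Nd n → X) := by
    intro n
    have : ∀ᶠ z in residual (Nd n → X), ∀ k, z ∈ B n k ↔ z ∈ O n k := by
      rw [eventually_countable_forall]
      intro k
      exact eventuallyEq_set.1 (hBO n k)
    exact this
  choose D hDo hDd hDR using fun n => exists_seq_of_residual (hres n)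
  have hOd : ∀ n, Dense (⋃ j, O n j) := by
    intro n
    refine (dense_of_mem_residual (hres n)).mono fun z hz => ?_
    obtain ⟨k, hk⟩ := hBc n z
    exact mem_iUnion.2 ⟨k, (hz k).1 hk⟩
  choose WW cc hWd hWV hWb using stage hperf hDo hDd hOo hOd
  let F : ∀ N, {V : Nd N → Set X // ∀ s, IsOpen (V s) ∧ (V s).Nonempty} := fun N =>
    Nat.rec (WW 0 ⟨fun _ => univ, fun _ => ⟨isOpen_univ, univ_nonempty⟩⟩)
      (fun N F => WW (N + 1) ⟨fun s => F.1 s.tail, fun s => F.2 _⟩) N
  let C : ℕ → ℕ := fun N => Nat.casesOn N (cc 0 ⟨fun _ => univ, fun _ => ⟨isOpen_univ, univ_nonempty⟩⟩)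
      (fun N => cc (N + 1) ⟨fun s => (F N).1 s.tail, fun s => (F N).2 _⟩)
  have hF : ∀ N, (∀ s, Metric.ediam ((F N).1 s) ≤ ENNReal.ofReal (1 / (N + 1))) ∧
      ∀ y : Nd N → X, (∀ s, y s ∈ (F N).1 s) → y ∈ DD D N ∧ y ∈ O N (C N) := by
    intro N
    cases N with
    | zero => exact ⟨hWd 0 _, hWb 0 _⟩
    | succ N => exact ⟨hWd (N + 1) _, hWb (N + 1) _⟩
  have hF2 : ∀ N (s : Nd (N + 1)), closure ((F (N + 1)).1 s) ⊆ (F N).1 s.tail := by
    intro N s
    exact hWV (N + 1) _ s
  have hdisj : ∀ N (s t : Nd N), s ≠ t → Disjoint ((F N).1 s) ((F N).1 t) := by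
    intro N s t hst
    rw [Set.disjoint_left]
    intro x hx hx'
    choose w hw using fun s => ((F N).2 s).2
    have h1 := ((hF N).2 (Function.update (Function.update w s x) t x) fun u => ?_).1.2
    · have h2 := mem_iInter.1 h1 ⟨(s, t), hst⟩
      apply h2
      show Function.update (Function.update w s x) t x s =
        Function.update (Function.update w s x) t x t
      rw [Function.update_self, Function.update_of_ne hst, Function.update_self]
    · by_cases h : u = t
      · subst h; simpa using hx'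
      · rw [Function.update_of_ne h]
        by_cases h' : u = s
        · subst h'; simpa using hx
        · rw [Function.update_of_ne h']
          exact hw u
  let A : List Bool → Set X := fun l => (F l.length).1 ⟨l, rfl⟩
  have hAres : ∀ x n, A (res x n) = (F n).1 ⟨res x n, res_length x n⟩ := by
    intro x n
    have : ∀ (m : ℕ) (h : (res x n).length = m), A (res x n) = (F m).1 ⟨res x n, h⟩ := by
      intro m h
      subst h
      rfl
    exact this n _
  have hcl : CantorScheme.ClosureAntitone A := fun l a => hF2 l.length ⟨a :: l, rfl⟩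
  have hdis : CantorScheme.Disjoint A := by
    intro l a b hab
    refine hdisj (l.length + 1) ⟨a :: l, rfl⟩ ⟨b :: l, rfl⟩ fun h => hab ?_
    have := congrArg Subtype.val h
    simpa using this
  have hvan : CantorScheme.VanishingDiam A := by
    intro x
    have h1 : ∀ n, Metric.ediam (A (res x n)) ≤ ENNReal.ofReal (1 / (n + 1)) := by
      intro n
      rw [hAres]
      exact (hF n).1 _
    refine tendsto_of_tendsto_of_tendsto_of_le_of_le tendsto_const_nhds ?_ (fun _ => zero_le) h1
    have := ENNReal.tendsto_ofReal tendsto_one_div_add_atTop_nhds_zero_nat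
    simpa using this
  have hne : ∀ l, (A l).Nonempty := fun l => ((F _).2 _).2
  have hdom := hcl.map_of_vanishingDiam hvan hne
  let Ψ : (ℕ → Bool) → X := fun x => (CantorScheme.inducedMap A).2 ⟨x, hdom ▸ mem_univ x⟩
  have hΨmem : ∀ x n, Ψ x ∈ (F n).1 ⟨res x n, res_length x n⟩ := by
    intro x n
    rw [← hAres]
    exact CantorScheme.map_mem _ n
  refine ⟨C, Ψ, ?_, ?_, ?_⟩
  · exact hvan.map_continuous.comp (continuous_id.subtype_mk _)
  · intro x y hxy
    have := hdis.map_injective hxy
    simpa using this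
  · intro n z hz
    choose x hx hxz using hz
    have hz1 : ∀ s, z s ∈ (F n).1 s := by
      intro s
      have := hΨmem (x s) n
      rw [hxz s] at this
      have h2 : (⟨res (x s) n, res_length _ _⟩ : Nd n) = s := Subtype.ext (hx s)
      rwa [h2] at this
    have hzO : z ∈ O n (C n) := ((hF n).2 z hz1).2
    refine (hDR n z fun j => ?_) (C n) |>.2 hzO
    -- membership in `D n j`
    set N := max n j with hN
    let σ : Sel n N := ⟨fun s => ⟨res (x s) N, res_length _ _⟩, fun s => by
      have h1 : ∀ (y : ℕ → Bool) (a b : ℕ), a ≤ b → res y a <:+ res y b := by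
        intro y a b hab
        induction b, hab using Nat.le_induction with
        | base => exact List.suffix_rfl
        | succ b _ ih => exact ih.trans (by rw [res_succ]; exact List.suffix_cons _ _)
      have h2 := h1 (x s) n N (le_max_left _ _)
      rw [hx s] at h2
      exact h2⟩
    choose w hw using fun s => ((F N).2 s).2
    have h1 := ((hF N).2 (Function.extend σ.1 z w) fun t => ?_).1.1
    · have h2 := mem_iInter.1 (mem_iInter.1 (mem_iInter.1 h1 ⟨n, by omega⟩) ⟨j, by omega⟩) σ
      have h3 : (fun s => Function.extend σ.1 z w (σ.1 s)) ∈ D n j := h2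
      simpa [σ.inj.extend_apply] using h3
    · by_cases ht : ∃ s, σ.1 s = t
      · obtain ⟨s, rfl⟩ := ht
        rw [σ.inj.extend_apply, ← hxz s]
        exact hΨmem (x s) N
      · rw [Function.extend_apply' _ _ _ ht]
        exact hw t

end fusion

end Pool.Agent.T2H96.Gamma
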