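import Pool.Agent.T2H96.Gamma.Cond

open Set Topology Filter PiNat

namespace Pool.Agent.T2H96.Gamma

theorem span_countable {E : Type} [AddCommGroup E] {S : Set E} (hS : S.Countable) :
    (Submodule.span ℤ S : Set E).Countable := by
  have := hS.to_subtype
  have h : Countable (Submodule.span ℤ (range (Subtype.val : S → E))) := inferInstance
  rw [Subtype.range_coe] at h
  exact countable_coe_iff.1 h

theorem cantor_perfect (x : ℕ → Bool) : (𝓝[≠] x).NeBot := by
  have h : Tendsto (fun n : ℕ => Function.update x n (!x n)) atTop (𝓝[≠] x) := by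
    rw [tendsto_nhdsWithin_iff]
    constructor
    · rw [tendsto_pi_nhds]
      intro m
      refine tendsto_const_nhds.congr' ?_
      filter_upwards [eventually_gt_atTop m] with n hn
      rw [Function.update_of_ne hn.ne]
    · refine Eventually.of_forall fun n h => ?_
      have := congrFun (show Function.update x n (!x n) = x from h) n
      simp at this
  exact h.neBot

/-- extension of a node by a branch -/
noncomputable def ext (s : List Bool) (x : ℕ → Bool) : ℕ → Bool := fun m =>
  if m < s.length then (cyl_nonempty s).some m else x (m - s.length)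

theorem ext_mem (s : List Bool) (x : ℕ → Bool) : ext s x ∈ cyl s := by
  show res _ s.length = s
  conv_rhs => rw [← show res (cyl_nonempty s).some s.length = s from (cyl_nonempty s).some_mem]
  rw [res_eq_res]
  intro m hm
  simp [ext, hm]

theorem ext_inj (s : List Bool) : Function.Injective (ext s) := by
  intro x y h
  funext m
  have := congrFun h (s.length + m)
  simpa [ext] using this

theorem ext_cont (s : List Bool) : Continuous (ext s) := by
  refine continuous_pi fun m => ?_
  by_cases h : m < s.length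
  · simp only [ext, h, if_true]
    exact continuous_const
  · simp only [ext, h, if_false]
    exact continuous_apply _

/-- a combination of level `n` -/
def elt {E : Type} [AddCommGroup E] (base : ℕ → (ℕ → Bool) → E) (g : E) (n : ℕ)
    (κ : Nd n × Fin n → Icc (-(n : ℤ)) n) (z : Nd n → (ℕ → Bool)) : E :=
  g + ∑ q : Nd n × Fin n, (κ q : ℤ) • base q.2 (z q.1)

variable {E : Type} [AddCommGroup E] [TopologicalSpace E] [IsTopologicalAddGroup E]
  [PolishSpace E] [MeasurableSpace E] [BorelSpace E]

omit [PolishSpace E] in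
theorem key (p : Cond E) (𝒰 : ℕ → ℕ → Set E) (h𝒰 : ∀ n k, MeasurableSet (𝒰 n k)) :
    ∃ q ≤ p, (∃ n, ∃ F : Finset E, (F : Set E) ⊆ q.G ∧ ∀ k, ¬ ((F : Set E) ⊆ 𝒰 n k)) ∨
      ∃ c : ℕ → ℕ, ∀ x ∈ q.H, ∀ᶠ n in atTop, x ∈ 𝒰 n (c n) := by
  classical
  by_cases h : ∃ n, ∃ F : Finset E, (F : Set E) ⊆ p.H ∧ ∀ k, ¬ ((F : Set E) ⊆ 𝒰 n k)
  · obtain ⟨n, F, hF, hFk⟩ := h
    let q : Cond E :=
      { G := p.G ⊔ Submodule.span ℤ F
        cnt := by
          have h1 := span_countable (p.cnt.union F.countable_toSet)
          rwa [Submodule.span_union, Submodule.span_eq] at h1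
        φ := p.φ
        cont := p.cont
        inj := p.inj }
    refine ⟨q, ⟨le_sup_left, ?_, fun i s => ⟨i, s, subset_rfl⟩⟩, Or.inl ⟨n, F, ?_, hFk⟩⟩
    · exact sup_le (sup_le p.G_le (Submodule.span_le.2 hF)) le_sup_right
    · exact Submodule.subset_span.trans (SetLike.coe_subset_coe.2 le_sup_right)
  · push Not at h
    obtain ⟨e, he⟩ := exists_surjective_nat (ℕ × List Bool)
    obtain ⟨g, hg⟩ := p.cnt.exists_eq_range ⟨0, p.G.zero_mem⟩
    set base : ℕ → (ℕ → Bool) → E := fun i x => p.φ (e i).1 (ext (e i).2 x) with hbase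
    have hbc : ∀ i, Continuous (base i) := fun i => (p.cont _).comp (ext_cont _)
    have hbi : ∀ i, Function.Injective (base i) := fun i => (p.inj _).comp (ext_inj _)
    have hbH : ∀ i x, base i x ∈ p.H := fun i x => p.φ_mem _ _
    have hgG : ∀ m, g m ∈ p.G := fun m => by
      have : g m ∈ (p.G : Set E) := hg ▸ mem_range_self m
      exact this
    have helt : ∀ n m κ z, elt base (g m) n κ z ∈ p.H := fun n m κ z =>
      p.H.add_mem (p.G_le (hgG m)) (p.H.sum_mem fun q _ => p.H.smul_mem _ (hbH _ _))
    let B : ∀ n, ℕ → Set (Nd n → (ℕ → Bool)) := fun n k =>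
      ⋂ m : Fin n, ⋂ κ : Nd n × Fin n → Icc (-(n : ℤ)) n, (elt base (g m) n κ) ⁻¹' 𝒰 n k
    have hBm : ∀ n k, ∃ u : Set (Nd n → (ℕ → Bool)), IsOpen u ∧ B n k =ᵇ u := by
      intro n k
      have : MeasurableSet (B n k) := by
        refine MeasurableSet.iInter fun m => MeasurableSet.iInter fun κ => ?_
        have hc : Continuous (elt base (g m) n κ) := by
          unfold elt
          refine continuous_const.add (continuous_finsetSum _ fun q _ => ?_)
          exact ((hbc q.2).comp (continuous_apply q.1)).zsmul _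
        exact hc.measurable (h𝒰 n k)
      exact this.residualEq_isOpen
    have hBc : ∀ n z, ∃ k, z ∈ B n k := by
      intro n z
      let F : Finset E := Finset.univ.image
        (fun r : Fin n × (Nd n × Fin n → Icc (-(n : ℤ)) n) => elt base (g r.1) n r.2 z)
      obtain ⟨k, hk⟩ := h n F (by
        intro x hx
        obtain ⟨r, -, rfl⟩ := Finset.mem_image.1 (Finset.mem_coe.1 hx)
        exact helt _ _ _ _)
      refine ⟨k, mem_iInter.2 fun m => mem_iInter.2 fun κ => hk ?_⟩
      exact Finset.mem_coe.2 (Finset.mem_image.2 ⟨(m, κ), Finset.mem_univ _, rfl⟩)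
    obtain ⟨c, Ψ, hΨc, hΨi, hΨ⟩ := (by
      let _ := TopologicalSpace.upgradeIsCompletelyMetrizable (ℕ → Bool)
      exact fusion (X := ℕ → Bool) cantor_perfect B hBm hBc :
      ∃ (c : ℕ → ℕ) (Ψ : (ℕ → Bool) → (ℕ → Bool)), Continuous Ψ ∧ Function.Injective Ψ ∧
      ∀ n (z : Nd n → (ℕ → Bool)), (∀ s, ∃ x, res x n = s.1 ∧ Ψ x = z s) → z ∈ B n (c n))
    let q : Cond E :=
      { G := p.G
        cnt := p.cnt
        φ := fun i => base i ∘ Ψ
        cont := fun i => (hbc i).comp hΨc
        inj := fun i => (hbi i).comp hΨi }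
    refine ⟨q, ⟨le_rfl, ?_, ?_⟩, Or.inr ⟨c, ?_⟩⟩
    · refine sup_le p.G_le (Submodule.span_le.2 ?_)
      rintro _ ⟨⟨i, x⟩, rfl⟩
      exact hbH _ _
    · intro a s
      obtain ⟨i, hi⟩ := he (a, s)
      refine ⟨i, [], ?_⟩
      rintro _ ⟨x, -, rfl⟩
      show p.φ (e i).1 (ext (e i).2 (Ψ x)) ∈ p.φ a '' cyl s
      rw [hi]
      exact mem_image_of_mem _ (ext_mem _ _)
    · intro x hx
      obtain ⟨y, hy, w, hw, rfl⟩ := Submodule.mem_sup.1 hx
      obtain ⟨m0, rfl⟩ : ∃ m, g m = y := by
        have : y ∈ (p.G : Set E) := hy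
        rw [hg] at this
        exact this
      obtain ⟨κ, rfl⟩ := Finsupp.mem_span_range_iff_exists_finsupp.1 hw
      have hsep : ∀ᶠ n in atTop, ∀ a ∈ κ.support, ∀ b ∈ κ.support, a.2 ≠ b.2 →
          res a.2 n ≠ res b.2 n := by
        rw [Filter.eventually_all_finset]
        intro a _
        rw [Filter.eventually_all_finset]
        intro b _
        by_cases hab : a.2 = b.2
        · exact Eventually.of_forall fun n h => absurd hab h
        · obtain ⟨j, hj⟩ := Function.ne_iff.1 hab
          filter_upwards [eventually_gt_atTop j] with n hn _ h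
          exact hj (res_eq_res.1 h hn)
      have hbd : ∀ᶠ n in atTop, ∀ a ∈ κ.support, a.1 < n ∧ |κ a| ≤ (n : ℤ) := by
        rw [Filter.eventually_all_finset]
        intro a _
        filter_upwards [eventually_gt_atTop a.1, eventually_ge_atTop (κ a).natAbs] with n h1 h2
        refine ⟨h1, ?_⟩
        rw [Int.abs_eq_natAbs]
        exact_mod_cast h2
      filter_upwards [hsep, hbd, eventually_gt_atTop m0] with n hsep hbd hm0
      -- a section
      let y : Nd n → (ℕ → Bool) := fun s =>
        if h : ∃ a ∈ κ.support, res a.2 n = s.1 then h.choose.2 else (cyl_nonempty s.1).some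
      have hy1 : ∀ s, res (y s) n = s.1 := by
        intro s
        by_cases h : ∃ a ∈ κ.support, res a.2 n = s.1
        · have : y s = h.choose.2 := dif_pos h
          rw [this]
          exact h.choose_spec.2
        · have : y s = (cyl_nonempty s.1).some := dif_neg h
          rw [this]
          have h2 : res (cyl_nonempty s.1).some s.1.length = s.1 := (cyl_nonempty s.1).some_mem
          rwa [s.2] at h2
      have hy2 : ∀ a ∈ κ.support, y ⟨res a.2 n, res_length _ _⟩ = a.2 := by
        intro a ha
        have h : ∃ b ∈ κ.support, res b.2 n = res a.2 n := ⟨a, ha, rfl⟩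
        have h1 : y ⟨res a.2 n, res_length _ _⟩ = h.choose.2 := dif_pos h
        rw [h1]
        by_contra hne
        exact hsep _ h.choose_spec.1 a ha hne h.choose_spec.2
      have hκb : ∀ a, κ a ∈ Icc (-(n : ℤ)) n := by
        intro a
        by_cases ha : a ∈ κ.support
        · exact abs_le.1 (hbd a ha).2
        · rw [Finsupp.notMem_support_iff.1 ha]
          constructor <;> simp
      have h1 := hΨ n (fun s => Ψ (y s)) fun s => ⟨y s, hy1 s, rfl⟩
      have h2 := mem_iInter.1 (mem_iInter.1 h1 ⟨m0, hm0⟩)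
        (fun q => ⟨κ (q.2, y q.1), hκb _⟩)
      have h3 : elt base (g m0) n (fun q => ⟨κ (q.2, y q.1), hκb _⟩) (fun s => Ψ (y s)) =
          g m0 + κ.sum fun i a => a • q.φ i.1 i.2 := by
        unfold elt
        congr 1
        symm
        unfold Finsupp.sum
        refine Finset.sum_of_injOn (fun a : ℕ × (ℕ → Bool) =>
          ((⟨res a.2 n, res_length _ _⟩ : Nd n), if h : a.1 < n then (⟨a.1, h⟩ : Fin n) else ⟨m0, hm0⟩))
          ?_ (fun _ _ => by simp) ?_ ?_
        · intro a ha b hb hab
          have ha' := (hbd a ha).1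
          have hb' := (hbd b hb).1
          simp only [ha', hb', dif_pos] at hab
          have hab1 : res a.2 n = res b.2 n := congrArg (fun r => r.1.1) hab
          have hab3 : a.1 = b.1 := congrArg (fun r => r.2.1) hab
          have hab2 : a.2 = b.2 := by
            by_contra hne
            exact hsep a ha b hb hne hab1
          exact Prod.ext hab3 hab2
        · intro r _ hr
          have : κ ((r.2 : ℕ), y r.1) = 0 := by
            by_contra hne
            apply hr
            have hs : ((r.2 : ℕ), y r.1) ∈ κ.support := Finsupp.mem_support_iff.2 hne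
            refine ⟨((r.2 : ℕ), y r.1), hs, ?_⟩
            refine Prod.ext (Subtype.ext (hy1 r.1)) ?_
            simp
          simp [this]
        · intro a ha
          have ha' := (hbd a ha).1
          simp only [ha', dif_pos, hy2 a ha]
          rfl
      show (g m0 + κ.sum fun i a => a • q.φ i.1 i.2) ∈ 𝒰 n (c n)
      rw [← h3]
      exact h2

end Pool.Agent.T2H96.Gamma
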